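import Pool.Agent.U660.MD.Nef
import Pool.Agent.U189.FV.Top
import Pool.Agent.U189.MG.Trm

/-!
# Log terminal models of generalized pairs on the modifications of arbitrary varieties with a finite
# morphism to a toric variety

**The varieties.** Let `Y` be any normal projective variety of dimension `n ≥ 1` over `ℂ` with the
function field `K`, and `x 0, ..., x n` sections of an ample line bundle `H` on `Y` without common zeros.
They define a finite morphism from `Y` to the projective `n`-space. `X` is the normalization in `K` of the
toric modification of the projective space which is given by `fan`: a modification of `Y` with a finite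
morphism to a toric variety, and a toroidal modification of `Y` if the divisors `x k = 0` have normal
crossings (see `Pool/Agent/U189/FV/Top.lean`, where the definitions `affine`, `minimalOrder`,
`multiplicities`, `InCone`, `IsFan` and `coefficient` are explained). `D 1, ..., D p` are the pullbacks to
`X` of toric `ℚ`-Cartier divisors; the coefficients of their pullbacks at the prime divisors `P` over `X` are
the `δ i P`.
`X` is projective and some rational combination of the `D i` is ample (`IsSmallModification n δ δ`: the
combinations near some combination are semiample).

**Generalized pairs.** Let `(X, B + β)` be a generalized pair, such that `K_X + B + β_X` is a real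
combination `w = ∑ i, w i * D i`. If `K_Y` is `ℚ`-linearly equivalent to a rational multiple of `H` and the
divisors `x k = 0` are multiples of divisors with normal crossings, then this holds if the `D i` generate
the pullbacks of the toric divisors and `B` and `β_X` are pullbacks of toric divisors with real
coefficients (for instance `β` is the pullback of a nef real class of some toric modification which
dominates the one of `X`). Here `Y` can be any Calabi-Yau variety, any abelian variety, any hyperkähler
variety, any variety with ample `K_Y` (`H` is a multiple of `K_Y`), any Fano variety (`H` is a multiple of
`- K_Y`), any smooth complete intersection of dimension `≥ 3`, and any abelian cover of such a variety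
which is branched only along the divisors `x k = 0`. These remarks are not used and not proved here.

**The models.** Let `X'` be a projective variety with a birational map `X --> X'` whose inverse contracts
no divisor, on which the images of the `D i` are `ℚ`-Cartier and some combination of them is ample. The
coefficients of the pullbacks of the images of the `D i` at the prime divisors `P` over `X` are the
`δ' i P`. The sections of the integral combinations on `X` are sections of the images. Suppose that the
prime divisors `E` on `X` which are contracted are combinations of the `D i`. Then for a combination
`lam = ∑ t E * E + L`, where all `t E > 0` and `L` is the pullback to `X` of an ample combination on `X'`,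
the rational combinations near `lam` are semiample on `X'` and their multiples have the same sections
on `X` and on `X'`. This is `IsModel`. (If `X` is `ℚ`-factorial and the `D i` generate the divisor
classes, the models are all `ℚ`-factorial birational contractions of `X`, as they appear in the
minimal model programs for all pairs on `X`.)

**The theorem.** There are finitely many models `X 1, ..., X M` and rational polyhedral cones
`C 1, ..., C M` of real combinations such that:
(1) for all integral `ν` in `C j` the combination has the same sections on `X` and on `X j`, and the
multiple `k ν` is base point free on `X j`; the number `k` is the same for all `ν` and `j`. In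
particular all real combinations in `C j` are semiample on `X j`: they are combinations, with
coefficients `≥ 0`, of base point free integral ones.
(2) every pseudo-effective real combination `w` (a limit of rational combinations which have a multiple
with a section) is in one of the `C j`, such that, for every prime divisor `P` over `X`, either the
coefficients of all `D i` at `P` are the same on `X` and on `X j`, or the coefficient of `w` at `P` is
smaller on `X j` than on `X`.

For the generalized klt pairs above with `K_X + B + β_X` pseudo-effective: the log discrepancy of the pair
on `X j` at `P` minus that of `(X, B + β)` is `∑ i, w i * δ i P - ∑ i, w i * δs j i P ≥ 0`, and it is positive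
unless all coefficients at `P` are the same, in particular if `P` is a prime divisor on `X` which is
contracted. So `X j` is a log terminal model, as Question Q1 asks, which is good: the class is
semiample. `B + β_X` need not be big (this case is known), and `β_X` need not be the class of a
`ℚ`-divisor. Finitely many models are enough for all `B` and `β`.

**Relation to the other results.** `MP_c1e25c_ag.NormalCrossingModels` is the same conclusion for the
abelian covers `Y` of the projective `n`-space which are branched along `n + 1` hypersurfaces with normal
crossings (there the `x k` are powers of the forms of the hypersurfaces). Here `Y` is arbitrary.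

**Proof.** New is the finite generation of the Cox ring of the `D i` (`Pool/Agent/U189/FV`): the sections
are integral over the sections on the toric variety, and they are contained in a finitely generated
module over the algebra of the monomials in a cone; every `Y` with a finite morphism to the
projective space is allowed. The models are deduced from it in `Pool/Agent/U189/MG` (with the
polyhedral library `Pool/Agent/U660/MD` of `helper660`): the generic combinations near `w + t A`, `A` ample,
`t → 0`, are in finitely many chambers; the dual solutions of the linear programs for the asymptotic
orders at `P` of the combinations in a chamber define the coefficients on the model.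
-/

set_option autoImplicit false

open FF MvPolynomial Pool.Agent.W602.GT

namespace Pool.Agent.Results.MP_c8c12f_ag.FiniteCoverModels

open Pool.Agent.Results.MP_89a3f8_ag.TerminationOfFlips
  (IsSection BasePointFree Semiample IsSmallModification)
open Pool.Agent.U660.MD (coneOf)
open Pool.Agent.U189.ND (affine minimalOrder InCone)
open Pool.Agent.U189.FV

section defs

variable {K : Type} [Field K] [Algebra ℂ K] {p : ℕ} (N : ℕ) (δ : Fin p → Place ℂ K → ℚ)

/-- The coefficients `δ'` are those of the images of the `D i` on a model `X'` of `X` on which they are
`ℚ`-Cartier and some rational combination of them is ample: all sections of integral combinations on `X`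
are sections on `X'`; and for some combination `lam` all rational combinations near `lam` are
semiample on `X'`, and their integral multiples have the same sections on `X` and on `X'`. -/
def IsModel (δ' : Fin p → Place ℂ K → ℚ) : Prop :=
  (∀ (μ : Fin p → ℤ) (f : K), IsSection N δ μ f → IsSection N δ' μ f) ∧
    ∃ (lam : Fin p → ℚ) (ε : ℚ), 0 < ε ∧ ∀ μ : Fin p → ℚ, (∀ i, |μ i - lam i| ≤ ε) →
      Semiample N δ' μ ∧ ∀ (k : ℕ) (ν : Fin p → ℤ), (∀ i, (k : ℚ) * μ i = ν i) →
        ∀ f : K, IsSection N δ' ν f → IsSection N δ ν f

/-- The real combination `∑ i, w i * D i` is pseudo-effective: it is a limit of rational combinations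
which have a positive integral multiple with a nonzero section. (If some combination of the `D i` is
ample, this is the usual notion.) -/
def IsPseudoeffective (w : Fin p → ℝ) : Prop :=
  ∀ ε : ℝ, 0 < ε → ∃ μ : Fin p → ℚ, (∀ i, |(μ i : ℝ) - w i| ≤ ε) ∧
    ∃ k : ℕ, 1 ≤ k ∧ ∃ ν : Fin p → ℤ, (∀ i, (k : ℚ) * μ i = ν i) ∧
      ∃ s : K, s ≠ 0 ∧ IsSection N δ ν s

end defs

/-- **Finitely many good log terminal models.** Let `K` be the function field of
a normal projective variety `Y` of dimension `n`, `x 0, ..., x n` sections of an ample line bundle without
common zeros, `X` the normalization in `K` of the toric modification of the projective `n`-space which is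
given by `fan`, and `D i`, `i < p`, the pullbacks of toric `ℚ`-Cartier divisors with the degrees `β i` and the
coefficients `c i`. Suppose that some rational combination
of the `D i` is ample on `X`. There are finitely many models `δs j` and rational polyhedral cones
`coneOf (h j)` and `k ≥ 1` such that for all integral `ν` in the cone of `j` the combination `k ν` is base
point free on the model `j`, and `ν` has the same sections on `X` and on this model; and every
pseudo-effective real combination `w` is in the cone of some `j` such that for every prime divisor `P`
over `X` the coefficients of all `D i` at `P` are the same on the model `j` as on `X` or the coefficient of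
`w` at `P` is smaller on the model `j` than on `X`. -/
theorem result (n p : ℕ) (hn : 1 ≤ n) (K : Type) [Field K] [Algebra ℂ K] (x : Fin (n + 1) → K)
    (hx0 : x 0 ≠ 0) (hbas : IsTranscendenceBasis ℂ (affine x))
    (hfin : FiniteDimensional (IntermediateField.adjoin ℂ (Set.range (affine x))) K)
    (fan : Finset (Finset (Fin (n + 1) → ℕ))) (hfan : IsFan fan)
    (c : Fin p → (Fin (n + 1) → ℕ) → ℚ) (β : Fin p → ℤ)
    (u : Finset (Fin (n + 1) → ℕ) → Fin p → Fin (n + 1) → ℚ)
    (hlin : ∀ σ ∈ fan, ∀ i v, (∃ k, v k = 0) → InCone σ v → c i v = ∑ k, u σ i k * v k)
    (δ : Fin p → Place ℂ K → ℚ) (hδ : ∀ i P, δ i P = coefficient x (c i) (β i) P)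
    (hX : IsSmallModification n δ δ) :
    ∃ (k M : ℕ) (δs : Fin M → Fin p → Place ℂ K → ℚ) (B : Fin M → ℕ)
      (h : ∀ j, Fin (B j) → Fin p → ℤ), 1 ≤ k ∧ (∀ j, IsModel n δ (δs j)) ∧
      (∀ (j : Fin M) (ν : Fin p → ℤ), (fun i => (ν i : ℝ)) ∈ coneOf (h j) →
        BasePointFree n (δs j) (k • ν) ∧
          ∀ f : K, IsSection n δ ν f ↔ IsSection n (δs j) ν f) ∧
      ∀ w : Fin p → ℝ, IsPseudoeffective n δ w → ∃ j, w ∈ coneOf (h j) ∧
        ∀ P : Place ℂ K, Divisorial n P → (∀ i, δs j i P = δ i P) ∨
          ∑ i, w i * (δs j i P : ℝ) < ∑ i, w i * (δ i P : ℝ) := by
  have hFG := cox_fv n p hn K x hx0 hbas hfin fan hfan c β u hlin δ hδ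
  obtain ⟨lam0, hsm⟩ := (Pool.Agent.U660.MD.small_iff δ δ).1 hX
  obtain ⟨k, M, δs, B, h, hk, hM, hC, hw⟩ := Pool.Agent.U189.MG.models hFG ⟨lam0, hsm⟩
  refine ⟨k, M, δs, B, h, hk, fun j => ?_, hC, hw⟩
  obtain ⟨lam, h1, h2⟩ := hM j
  exact ⟨h1, lam, h2⟩

end Pool.Agent.Results.MP_c8c12f_ag.FiniteCoverModels
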