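import Pool.Agent.U192.PX.Trans

/-!
# Pairs with an isotrivial correspondence: pseudo-effectivity and good minimal models

Let `X` be a projective variety over `ℂ` of dimension `d`, `(W, Δ)` a pair, and let `V₁ ⊂ W × X` be a
correspondence of finite degree over `W`, dominant over `X`, which is birationally isotrivial over `X`:
for some dominant rational map `X' ⇢ X` with `dim X' = dim X` the fibre product `V₁ ×_X X'` (or one of
its components) is birational to a product `V = X' × Y`, `dim Y = r + 1 ≥ 1`. In other words, there is a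
dominant rational map `f : V = X' × Y ⇢ W` of finite degree such that `V ⇢ W × X'` is injective on an
open subset, and `V₁` is the image of `V` in `W × X`. Let `Δ_Y` be a boundary on `Y` such that over
the generic point of `X'` the positive part `Δ_V` of `f^* Δ - R` is at most, and `f^* Δ` is at least, the
product `X' × Δ_Y`.

Let `T` be a finite set of rational functions on `X` such that `1` and the functions in `T` generate the
function field of `V₁` as a vector space over `ℂ(W)` (they separate the points of `X` which correspond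
to a general point of `W`), and let `H` be the divisor of the poles of the functions in `T`.

**Theorem.**
* If a multiple of `K_X - 2 H` is effective then `K_W + Δ` is pseudo-effective if and only if `K_Y + Δ_Y` is,
  and `κ(K_W + Δ) ≥ 0` if and only if `κ(K_Y + Δ_Y) ≥ 0`.
* If `K_X - 2 H` is big then `K_W + Δ` is abundant with nonnegative Kodaira dimension, `κ = ν ≥ 0`, if and
  only if `K_Y + Δ_Y` is.

For projective klt pairs `κ = ν ≥ 0` is equivalent to the existence of a good log terminal model (Gongyo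
and Lehmann; Kawamata). So every pseudo-effective `K_W + Δ` has a good log terminal model if this is
true for `K_Y + Δ_Y`, and conversely. In particular this is so if `dim Y ≤ 3`. (These remarks are not part
of the Lean proof.)

The case `X' = X`, with the monomials in the coordinates of maps to projective spaces as functions in
`T`, of the first part is `NonvanishingTransfer` (MP_bc213e_ag), the first part with `Δ = 0` is in
`IsotrivialCorrespondences` (MP_813db1_ag), and the second part is deduced from the first and from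
`IsotrivialCorrespondences` (MP_9a2ae6_ag), all by the same author. New are the first part for pairs,
with its consequence that `κ = ν ≥ 0` is equivalent for the two pairs.

Proof. The norm of `θ ⊠ β`, for a section `θ` of `m (K_X - 2 H)` and a section `β` of
`m (K_Y + Δ_Y) + B`, multiplied by a power of the discriminant of a basis in `{1} ∪ T`, is a section
of `m deg(f) (K_W + Δ) + C`; conversely sections on `W` are restricted to the fibres of `V → X'`. If
`κ(K_W + Δ) ≥ h ≥ ν(K_W + Δ)`, then `κ(K_Y + Δ_Y) ≥ 0`, and so one can take `h ≥ d`.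
-/

set_option autoImplicit false
set_option linter.overlappingInstances false
set_option maxHeartbeats 4000000

open FF Module Pool.Agent.W602.GT
open Pool.Agent.Y174 (PairKod PairNum PairSec)

namespace Pool.Agent.Results.MP_c8c12f_ag.GoodModelsTransfer

/-- The order of the poles along `v` of the functions in the finite set `T`: the multiplicity at `v`
of `H`, the smallest effective divisor with `H + (t) ≥ 0` for all `t ∈ T`, `t ≠ 0`. -/
noncomputable def poleOrder {E : Type} [Field E] [Algebra ℂ E] (T : Finset E) (v : Place ℂ E) : ℕ :=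
  T.sup fun z => (-v.ord z).toNat

/-- `θ` is a section of `m (K_X - 2 H)`, where `E` is the function field of `X`, of dimension `d`, and
`H` is the divisor of the poles of the functions in `T`: an `m`-canonical form of order at least
`2 m H_v` along all prime divisors `v` over `X`. -/
def IsSection {E : Type} [Field E] [Algebra ℂ E] (d m : ℕ) (T : Finset E)
    (θ : (Fin d → Derivation ℂ E E) → E) : Prop :=
  IsPluri m θ ∧ ∀ v : Place ℂ E, Divisorial d v → ∀ G : Fin d → Derivation ℂ E E,
    (∀ i, DerReg v (G i)) → θ G = 0 ∨ 2 * (m : ℤ) * poleOrder T v ≤ v.ord (θ G)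

/-- `K_X - 2 H` is big, `dim X = d`: for some `m ≥ 1` there are `d + 1` sections of `m (K_X - 2 H)` with
algebraically independent ratios. -/
def IsBig {E : Type} [Field E] [Algebra ℂ E] (d : ℕ) (T : Finset E) : Prop :=
  ∃ m : ℕ, 1 ≤ m ∧ ∃ θ : Fin (d + 1) → (Fin d → Derivation ℂ E E) → E,
    (∀ j, IsSection d m T (θ j)) ∧ ∃ G : Fin d → Derivation ℂ E E, θ 0 G ≠ 0 ∧
      AlgebraicIndependent ℂ fun j : Fin d => θ j.succ G / θ 0 G

/-- `1` and the functions in `T` generate the field `K(E)` as a vector space over `K`. Here `L` is the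
function field of `V`, `E` the one of `X`, `K` the one of `W`, and so `K(E)` the one of `V₁`. -/
def Separates {L : Type} [Field L] [Algebra ℂ L] (K : Type) [Field K] [Algebra K L]
    (E : IntermediateField ℂ L) (T : Finset E) : Prop :=
  ∀ z ∈ IntermediateField.adjoin K (E : Set L),
    z ∈ Submodule.span K (insert 1 ((fun t : E => (t : L)) '' (T : Set E)))

/-- `Q` lies over `P` with the ramification index `e`. -/
def LiesOver {K L : Type} [Field K] [Field L] [Algebra ℂ K] [Algebra ℂ L] [Algebra K L]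
    (Q : Place ℂ L) (P : Place ℂ K) (e : ℕ) : Prop :=
  0 < e ∧ ∀ f : K, Q.ord (algebraMap K L f) = e * P.ord f

/-- `Δ_V` is the positive part of the divisor `Δ'` with `K_V + Δ' = f^* (K_W + Δ)`. The multiplicity
of `Δ` at a prime divisor `P` over `W` is `δ P`. -/
def IsPullBack {K L : Type} [Field K] [Field L] [Algebra ℂ K] [Algebra ℂ L] [Algebra K L]
    (δ : Place ℂ K → ℝ) (δV : Place ℂ L → ℝ) : Prop :=
  ∀ (P : Place ℂ K) (Q : Place ℂ L) (e : ℕ), LiesOver Q P e → δV Q = max 0 (1 - e * (1 - δ P))

/-- The divisor `Δ_V` on `V = X' × Y`, of dimension `n`, is at most the product `X' × Δ_Y` over the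
generic point of `X'`. `U` and `F` are the function fields of `X'` and `Y`. Let `Q` be a prime divisor
over `V` which is mapped onto `X'`. If it is mapped onto `Y`, too, then the multiplicity of `Δ_V` is at
most `0`, and if it lies over the prime divisor `P` over `Y` with the ramification index `e` then the
multiplicity is at most the one of the positive part of the pull-back, `max 0 (1 - e (1 - δ_Y P))`. -/
def IsProductBoundary {L : Type} [Field L] [Algebra ℂ L] (U F : IntermediateField ℂ L) (n : ℕ)
    (δV : Place ℂ L → ℝ) (δY : Place ℂ F → ℝ) : Prop :=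
  ∀ Q : Place ℂ L, Divisorial n Q → (∀ z ∈ U, Q.ord z = 0) →
    ((∀ z ∈ F, Q.ord z = 0) → δV Q ≤ 0) ∧
    ∀ (P : Place ℂ F) (e : ℕ), LiesOver Q P e → δV Q ≤ max 0 (1 - e * (1 - δY P))

/-- Over the generic point of `X'`, the divisor `f^* Δ` on `V = X' × Y`, of dimension `n`, is at least
the product `X' × Δ_Y`: if the prime divisor `Q` over `V` is mapped onto `X'` and lies over the prime
divisors `P` over `W` and `P'` over `Y`, with the ramification indices `e` and `e'`, then the
multiplicity `1 - e' (1 - δ_Y P')` of the product boundary is at most the multiplicity `e δ P` of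
`f^* Δ`. -/
def BoundsProduct {K L : Type} [Field K] [Field L] [Algebra ℂ K] [Algebra ℂ L] [Algebra K L]
    (U F : IntermediateField ℂ L) (n : ℕ) (δ : Place ℂ K → ℝ) (δY : Place ℂ F → ℝ) : Prop :=
  ∀ (P : Place ℂ K) (Q : Place ℂ L) (P' : Place ℂ F) (e e' : ℕ), LiesOver Q P e →
    LiesOver Q P' e' → Divisorial n Q → (∀ z ∈ U, Q.ord z = 0) → 1 - e' * (1 - δY P') ≤ e * δ P

/-- The multiplicities of `Δ` at all prime divisors over the variety of dimension `n` are bounded by
those of a divisor, the divisor of the poles of finitely many functions. -/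
def IsBounded {K : Type} [Field K] [Algebra ℂ K] (n : ℕ) (δ : Place ℂ K → ℝ) : Prop :=
  ∃ S : Finset K, ∀ P : Place ℂ K, Divisorial n P → ∃ s ∈ S, s ≠ 0 ∧ δ P ≤ -P.ord s

/-- `K + Δ` is pseudo-effective, where `Δ` has the multiplicities `δ`: for some divisor `A`, generated by a
finite set `S` of functions, there are nonzero sections of `m (K + Δ) + A` for infinitely many `m`. -/
def IsPseff (k : Type) [Field k] [Algebra ℂ k] (n : ℕ) (δ : Place ℂ k → ℝ) : Prop :=
  ∃ S : Finset k, ∀ m0 : ℕ, ∃ m : ℕ, m0 ≤ m ∧ ∃ ω, PairSec ℂ k n δ S m 1 ω ∧ ω ≠ 0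

/-- `K + Δ` is abundant with nonnegative Kodaira dimension, `κ = ν ≥ 0`: for some `h ≥ 0` the Kodaira
dimension is at least `h` and the numerical dimension is at most `h`. -/
def IsAbundant (k : Type) [Field k] [Algebra ℂ k] (n : ℕ) (δ : Place ℂ k → ℝ) : Prop :=
  ∃ h : ℕ, PairKod ℂ k n δ h ∧ PairNum ℂ k n δ h

theorem indep_one {k : Type} [Field k] [Algebra ℂ k] {n : ℕ}
    {P : ((Fin n → Derivation ℂ k k) → k) → Prop} :
    Pool.Agent.W619.TW.HasIndep ℂ k n 1 P ↔ ∃ ω, P ω ∧ ω ≠ 0 := by
  constructor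
  · rintro ⟨ω, hω, hs⟩
    exact ⟨ω 0, hs 0, hω.ne_zero 0⟩
  · rintro ⟨ω, hs, h0⟩
    exact ⟨fun _ => ω, linearIndependent_unique_iff.2 h0, fun _ => hs⟩

theorem pseff_iff {k : Type} [Field k] [Algebra ℂ k] {n : ℕ} {δ : Place ℂ k → ℝ} :
    IsPseff k n δ ↔ ¬ U192.PN.PairNeg ℂ k n δ := by
  unfold IsPseff U192.PN.PairNeg
  push Not
  constructor
  · rintro ⟨S, h⟩
    refine ⟨S, fun m0 => ?_⟩
    obtain ⟨m, hm, hω⟩ := h m0
    exact ⟨m, hm, indep_one.2 hω⟩
  · rintro ⟨S, h⟩
    refine ⟨S, fun m0 => ?_⟩
    obtain ⟨m, hm, hi⟩ := h m0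
    exact ⟨m, hm, indep_one.1 hi⟩

theorem num_mono {k : Type} [Field k] [Algebra ℂ k] {n h h' : ℕ} {δ : Place ℂ k → ℝ}
    (hle : h ≤ h') (hν : PairNum ℂ k n δ h) : PairNum ℂ k n δ h' := by
  intro S
  obtain ⟨c, hc⟩ := hν S
  exact ⟨c, fun m N hm hN => (hc m N hm hN).trans
    (Nat.mul_le_mul_left _ (Nat.pow_le_pow_right hm hle))⟩

theorem kod_mono {k : Type} [Field k] [Algebra ℂ k] {n h h' : ℕ} {δ : Place ℂ k → ℝ}
    (hle : h' ≤ h) (hκ : PairKod ℂ k n δ h) : PairKod ℂ k n δ h' := by
  obtain ⟨m, hm, ω, hω, D, hD, hind⟩ := hκ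
  refine ⟨m, hm, fun j => ω (Fin.castLE (by omega) j), fun j => hω _, D, fun j => hD _, ?_⟩
  exact hind.comp (Fin.castLE hle) (Fin.castLE_injective hle)

/-- **Pseudo-effectivity and abundance of pairs with an isotrivial correspondence.** Let `L` be the
function field of the product `V`
of the varieties `X'` and `Y` with the function fields `U` and `F`, of dimensions `d` and `r + 1`: it is
generated by `U` and `F` and has the transcendence degree `d + (r + 1)`. Let `E ⊆ U`, of
transcendence degree `d`, be the function field of `X`, let `K ⊆ L` be the function field of a variety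
`W`, the extension being finite, such that `L` is generated by `K` and `U` (i.e. the map `V ⇢ W × X'` is
generically injective), and let `T ⊆ E` be a finite set which separates the points of `X` which
correspond to a general point of `W`. Let `Δ_Y` be a divisor with multiplicities `0 ≤ δ_Y P ≤ 1` at the
prime divisors over `Y`, and `Δ` an effective divisor on `W`, whose pull-back `f^* Δ` is at least, and
for which the positive part `Δ_V` of `f^* Δ - R` is at most, the product `X' × Δ_Y` over the generic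
point of `X'`. If `m (K_X - 2 H)` has a nonzero section, `m ≥ 1`, `H` the divisor of the poles of `T`,
then `K_W + Δ` is pseudo-effective if and only if `K_Y + Δ_Y` is, and `κ(K_W + Δ) ≥ 0` if and only if
`κ(K_Y + Δ_Y) ≥ 0`. If `K_X - 2 H` is big then `κ(K_W + Δ) = ν(K_W + Δ) ≥ 0` if and only if
`κ(K_Y + Δ_Y) = ν(K_Y + Δ_Y) ≥ 0`. -/
theorem result {L : Type} [Field L] [Algebra ℂ L] [Algebra.EssFiniteType ℂ L]
    (E U F : IntermediateField ℂ L) (hEU : E ≤ U) (hUF : U ⊔ F = ⊤) {d r : ℕ}
    (hE : Algebra.trdeg ℂ E = d) (hU : Algebra.trdeg ℂ U = d)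
    (hF : Algebra.trdeg ℂ F = (r + 1 : ℕ)) (hL : Algebra.trdeg ℂ L = (d + (r + 1) : ℕ))
    (K : Type) [Field K] [Algebra ℂ K] [Algebra K L] [IsScalarTower ℂ K L] [FiniteDimensional K L]
    (hinj : IntermediateField.adjoin K (U : Set L) = ⊤) (T : Finset E) (hT : Separates K E T)
    (δY : Place ℂ F → ℝ) (hY0 : ∀ P, 0 ≤ δY P) (hY1 : ∀ P, Divisorial (r + 1) P → δY P ≤ 1)
    (δ : Place ℂ K → ℝ) (hδ0 : ∀ P, 0 ≤ δ P) (hδ : IsBounded (d + (r + 1)) δ)
    (δV : Place ℂ L → ℝ) (hδV : IsPullBack δ δV)
    (hle : IsProductBoundary U F (d + (r + 1)) δV δY)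
    (hge : BoundsProduct U F (d + (r + 1)) δ δY) :
    ((∃ m : ℕ, 1 ≤ m ∧ ∃ θ, IsSection d m T θ ∧ θ ≠ 0) →
      (IsPseff K (d + (r + 1)) δ ↔ IsPseff F (r + 1) δY) ∧
      (PairKod ℂ K (d + (r + 1)) δ 0 ↔ PairKod ℂ F (r + 1) δY 0)) ∧
    (IsBig d T → (IsAbundant K (d + (r + 1)) δ ↔ IsAbundant F (r + 1) δY)) := by
  classical
  have hessE : Algebra.EssFiniteType ℂ E := Pool.Agent.N999.SX.ess_any E
  have hessU : Algebra.EssFiniteType ℂ U := Pool.Agent.N999.SX.ess_any U
  have hessF : Algebra.EssFiniteType ℂ F := Pool.Agent.N999.SX.ess_any F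
  have hset : ∀ z ∈ IntermediateField.adjoin K (E : Set L),
      z ∈ Submodule.span K {z : L | ∃ t : E, (t = 1 ∨ t ∈ T) ∧ (t : L) = z} := by
    intro z hz
    refine Submodule.span_mono ?_ (hT z hz)
    rintro w (rfl | ⟨t, ht, rfl⟩)
    · exact ⟨1, Or.inl rfl, rfl⟩
    · exact ⟨t, Or.inr ht, rfl⟩
  have hconv : ∀ (m : ℕ) (θ : (Fin d → Derivation ℂ E E) → E), IsSection d m T θ →
      U192.PX.SecT d m T {1} θ := fun m θ hθ => ⟨hθ.1, fun P hP G hG => by
    rcases hθ.2 P hP G hG with h | h
    · exact Or.inl h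
    · refine Or.inr ⟨1, Finset.mem_singleton_self _, one_ne_zero, ?_⟩
      rw [P.ord_one, add_zero]
      exact h⟩
  have hfirst : (∃ m : ℕ, 1 ≤ m ∧ ∃ θ, IsSection d m T θ ∧ θ ≠ 0) →
      (IsPseff K (d + (r + 1)) δ ↔ IsPseff F (r + 1) δY) ∧
      (PairKod ℂ K (d + (r + 1)) δ 0 ↔ PairKod ℂ F (r + 1) δY 0) := by
    rintro ⟨m, hm, θ, hθ, hθ0⟩
    obtain ⟨h1, h2⟩ := U192.PX.nonvan_transfer (K := K) (E := E) (U := U) (F := F) hm hUF hEU hE hU
      hF hL hinj hset hδ0 hδV hY0 hY1 hle hge (hconv m θ hθ) hθ0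
    exact ⟨by rw [pseff_iff, pseff_iff, h1], h2⟩
  refine ⟨hfirst, fun hbig => ?_⟩
  obtain ⟨m, hm, θ, hθ, D, hD, hind⟩ := hbig
  have habu := U192.PX.abu_transfer (K := K) (E := E) (U := U) (F := F) hm hUF hEU hE hU hF hL hinj
    hset hδ0 hδ hδV hY0 hY1 hle hge (α := θ) (fun j => hconv m _ (hθ j)) hD hind
  have hkz := (hfirst ⟨m, hm, θ 0, hθ 0, fun h => hD (by rw [h]; rfl)⟩).2
  constructor
  · rintro ⟨h, hκ, hν⟩
    have h0 := hkz.1 (kod_mono (Nat.zero_le _) hκ)
    rcases le_total d h with hdh | hdh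
    · obtain ⟨b, rfl⟩ := Nat.exists_eq_add_of_le hdh
      exact ⟨b, (habu b).1.1 hκ, (habu b).2.1 hν⟩
    · exact ⟨0, h0, (habu 0).2.1 (num_mono hdh hν)⟩
  · rintro ⟨b, hκ, hν⟩
    exact ⟨d + b, (habu b).1.2 hκ, (habu b).2.2 hν⟩

end Pool.Agent.Results.MP_c8c12f_ag.GoodModelsTransfer
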