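import Pool.Agent.U976.LT.C

/-!
# Log terminal models of all generalized log canonical pairs on toric bundles

Let `X` be a compact Kähler manifold (or a compact Kähler space with quotient singularities) of any
dimension, whose canonical class is nef and whose pseudo-effective classes are nef: for instance any
complex torus, algebraic or not, and its finite quotients without fixed divisors; any curve of genus at
least one; each `X` with nef `K_X` and one-dimensional `H^{1,1}(X, ℝ)`. Let `Y → X` be a toric bundle: it
is given by `n` arbitrary line bundles on `X`, with the classes `N l`, and by any complete simplicial fan
in `ℝ ^ n`; so all fibres are the same `ℚ`-factorial complete toric variety of dimension `n`.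

**Theorem.** Let `(Y, B + β)` be a gklt pair on `Y` such that `K_Y + B + β` is pseudo-effective. Then
`(Y, B + β)` has a log terminal model `Y'`, which is the toric bundle over `X` given by another fan whose
rays are rays of the fan of `Y`. The same is true for generalized log canonical pairs `(Y, B + β)`, with
`(Y', B' + β)` generalized log canonical instead of gklt. In particular finitely many `Y'` suffice for
all generalized log canonical pairs on `Y`, as there are only finitely many such fans.

`B` need not be torus invariant, and the coefficients of `B` and the class `β` may be irrational; `β` is
any b-class which is nef on some resolution. What is used in the Lean statement is only the class of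
`B + β` and the property `IsGenLC` of it. It is satisfied by generalized log canonical pairs: the pair
gives for each torus invariant prime divisor `E_w` over `Y` and each `ε > 0` a positive current in a
class which differs from `B + β` by at most `ε`, whose multiplicity at `E_w` is at most the log
discrepancy of `E_w` plus `ε`; take the mean over the compact torus, apply the minimum principle of
Kiselman to the fibres of `Y → X`, and pass to the limit. In the same way the pseudo-effective classes are
the ones with `IsPsef`. (These standard facts are not formalized.)

The case of the log canonical pairs is `β = 0`. If `X` is projective of maximal Albanese dimension and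
the pair is klt this is a consequence of results of Birkar and Chen and of Hu.

The proof: let `P` be the polytope of all `q` such that the exponents `b i - 1 + ⟨q, u i⟩` of
`K_Y + B + β` are nonnegative. If `q ∈ P` were not an exponent of `B + β` (in the sense of positive
currents) then a separating vector `w` would contradict `IsGenLC`; so the base parts are nef for all
points of `P`, and pseudo-effectivity and nefness are questions on the fibre. The fan of `Y'` is the
normal fan of a small generic modification of `P`, which keeps all inequalities tight which are tight on
`P`; the fan is constant along a sequence of modifications which tends to `P`, and the limits of the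
vertices show that `K_{Y'} + B' + β` is nef.

The definitions are in `Pool.Agent.U976.LT.Defs`.
-/

set_option autoImplicit false

namespace Pool.Agent.Results.MP_c8c12f_ag.ToricBundleModels

open Pool.Agent.U976.LT

/-- Let `W` be a real vector space (`H^{1,1}(X, ℝ)`), `C` a closed convex cone in it (of the nef classes,
which are the pseudo-effective ones), `κ ∈ C` (the class of `K_X`), `N l ∈ W`, `l < n`, and `Y` the toric
bundle given by the `N l` and a complete simplicial fan `S`, whose rays are generated by the vectors
`u i`. Let `(b, α)` be the class of `B + β` on `Y`. If it has the property of generalized log canonical
pairs and `K_Y + B + β` is pseudo-effective then there is a model `Y'` of `(Y, B + β)` as in `IsModel`, a toric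
bundle given by the `N l` and a projective fan whose rays are some of the rays of `S`. -/
theorem result {ι : Type*} [Fintype ι] {n : ℕ} {W : Type*} [NormedAddCommGroup W] [NormedSpace ℝ W]
    (C : Set W) (hC : IsClosed C) (hadd : ∀ x ∈ C, ∀ y ∈ C, x + y ∈ C)
    (hsmul : ∀ t : ℝ, 0 ≤ t → ∀ x ∈ C, t • x ∈ C) (κ : W) (hκ : κ ∈ C) (N : Fin n → W)
    (u : ι → Fin n → ℤ) (S : Set (Set ι)) (hS : IsCompleteFan u S) (hray : ∀ i, {i} ∈ S)
    (b : ι → ℝ) (α : W) (hb : IsGenLC u S C N b α) (hp : IsPsef u C N (fun i => b i - 1) (κ + α)) :
    ∃ S' : Set (Set ι), IsModel u S S' C κ N b α :=
  exists_model hS hray hC hadd hsmul hκ hb hp

end Pool.Agent.Results.MP_c8c12f_ag.ToricBundleModels
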